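import Pool.Agent.U866.OM.Stm

/-! Project OM: the assembly. -/

set_option autoImplicit false

namespace Pool.Agent.U866.OM

open Pool.Agent.H498R3.GB
open scoped BigOperators ContDiff Topology Matrix
open MeasureTheory Filter Metric

section
variable {m : ℕ}

theorem fderiv_zero_of {v : E m → ℝ} {x : E m} (hx : x ∉ tsupport v) : ∀ᶠ z in 𝓝 x, v z = 0 := by
  have := notMem_tsupport_iff_eventuallyEq.1 hx
  exact this

theorem pd_zero_of {v : E m → ℝ} {x : E m} (hx : ∀ᶠ z in 𝓝 x, v z = 0) (i : Fin m) : pd i v x = 0 := by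
  unfold pd
  have h : v =ᶠ[𝓝 x] fun _ => (0 : ℝ) := hx
  rw [h.fderiv_eq]
  simp

theorem pd_zero_ev {v : E m → ℝ} {x : E m} (hx : ∀ᶠ z in 𝓝 x, v z = 0) (i : Fin m) :
    ∀ᶠ z in 𝓝 x, pd i v z = 0 := by
  filter_upwards [hx.eventually_nhds] with z hz
  exact pd_zero_of hz i

theorem jets_zero {v : E m → ℝ} {x : E m} (hx : x ∉ tsupport v) : S2 v x = 0 ∧ Q v x = 0 := by
  have h := fderiv_zero_of hx
  have hA : ∀ i j, A v x i j = 0 := fun i j => pd_zero_of (pd_zero_ev h j) i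
  constructor
  · simp [S2, hA]
  · simp [Q, hA]

theorem scal_zero (hSC : S_SC) {v : E m → ℝ} (hv : ContDiff ℝ ∞ v) {x : E m} (hx : x ∉ tsupport v) :
    Scal (euc v) x * volDensity (euc v) x = 0 := by
  rw [hSC m v hv x, (jets_zero hx).1, (jets_zero hx).2]
  simp

theorem cpt_smul (c t : ℝ) (x : E m) : cpt (c * t) (c • x) = c • cpt t x := by
  ext a
  refine Fin.cases ?_ (fun j => ?_) a
  · simp [cpt]
  · simp [cpt]

theorem norm_cpt_le (t : ℝ) (x : E m) : ‖cpt t x‖ ≤ |t| + ‖x‖ := by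
  have h1 : ‖cpt t x‖ ^ 2 = t ^ 2 + ‖x‖ ^ 2 := by
    rw [EuclideanSpace.norm_sq_eq, EuclideanSpace.norm_sq_eq, Fin.sum_univ_succ]
    simp [cpt]
  have h2 : ‖cpt t x‖ ^ 2 ≤ (|t| + ‖x‖) ^ 2 := by
    rw [h1]
    nlinarith [abs_nonneg t, norm_nonneg x, sq_abs t]
  exact le_of_sq_le_sq h2 (by positivity)
where
  le_of_sq_le_sq {a b : ℝ} (h : a ^ 2 ≤ b ^ 2) (hb : 0 ≤ b) : a ≤ b := abs_le_of_sq_le_sq' h hb |>.2

/-- the limit of the rescaled integrals -/
theorem lim_fam (hZ : S_ZERO) (hF : S_FAM) (hJ : S_JC) (hI : S_INT) (G : MetricField (m + 1))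
    (U : Set (E (m + 1))) (hU : IsOpen U) (h0 : 0 ∈ U) (hG : IsRiemannianOn G U) (h1 : G 0 = 1)
    (v : E m → ℝ) (hv : ContDiff ℝ ∞ v) (R : ℝ) :
    (∀ᶠ ε in 𝓝[>] (0 : ℝ), ContinuousOn (fun y => Scal (fam G v ε) y * volDensity (fam G v ε) y)
      (closedBall (0 : E m) R)) ∧
    Tendsto (fun ε : ℝ => ∫ y in ball (0 : E m) R, Scal (fam G v ε) y * volDensity (fam G v ε) y) (𝓝[>] 0)
      (𝓝 (∫ y in ball (0 : E m) R, Scal (euc v) y * volDensity (euc v) y)) := by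
  obtain ⟨ho, hs, hp⟩ := hF m G U v hU hG hv
  have hc := hJ m (fam G v) _ ho hs hp
  have h00 : ∀ y ∈ closedBall (0 : E m) R, ((0 : ℝ), y) ∈ {q : ℝ × E m | q.1 • gpt v q.2 ∈ U} := by
    intro y _
    change (0 : ℝ) • gpt v y ∈ U
    rw [zero_smul]; exact h0
  have e : (fun y => Scal (euc v) y * volDensity (euc v) y) =
      fun y => Scal (fam G v 0) y * volDensity (fam G v 0) y := by rw [hZ m G v hv h1]
  rw [e]
  generalize hD : (fun q : ℝ × E m => Scal (fam G v q.1) q.2 * volDensity (fam G v q.1) q.2) = D at hc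
  have hD' : ∀ ε : ℝ, (fun y => Scal (fam G v ε) y * volDensity (fam G v ε) y) = fun y => D (ε, y) := by
    intro ε; rw [← hD]
  obtain ⟨hev, ht⟩ := hI m D _ R ho hc h00
  simp only [hD']
  refine ⟨?_, ht⟩
  filter_upwards [hev] with ε hε
  have : ContinuousOn (fun y : E m => ((ε, y) : ℝ × E m)) (closedBall (0 : E m) R) := by fun_prop
  exact hc.comp this hε

theorem main (hSC : S_SC) (hT : S_T) (hS : S_SMALL) (hP : S_POS) (hZ : S_ZERO) (hF : S_FAM) (hJ : S_JC)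
    (hI : S_INT) (hPT : S_PT) (hSub : S_SUB) : Target := by
  intro m hm G U hU h0 hG h1 r hr
  obtain ⟨k, rfl⟩ : ∃ k, m = k + 3 := ⟨m - 3, by omega⟩
  obtain ⟨v0, hv0, hc0, hn0, hpos⟩ := hP k
  -- bounds
  obtain ⟨B0, hB0⟩ : ∃ B, ∀ x, ‖v0 x‖ ≤ B := hc0.exists_bound_of_continuous hv0.continuous
  have hfc : Continuous (fderiv ℝ v0) := hv0.continuous_fderiv (by simp)
  obtain ⟨B1, hB1⟩ : ∃ B, ∀ x, ‖fderiv ℝ v0 x‖ ≤ B := (hc0.fderiv ℝ).exists_bound_of_continuous hfc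
  set B : ℝ := max (max B0 B1) 1 with hB
  have hBpos : 0 < B := lt_of_lt_of_le one_pos (le_max_right _ _)
  have hB0' : ∀ x, v0 x ≤ B := fun x => (le_abs_self _).trans ((hB0 x).trans
    ((le_max_left _ _).trans (le_max_left _ _)))
  have hB1' : ∀ x, ‖fderiv ℝ v0 x‖ ≤ B := fun x => (hB1 x).trans ((le_max_right _ _).trans (le_max_left _ _))
  -- choice of δ
  have hev := hS (k + 3) v0 hv0 hc0 hpos
  have hev2 : ∀ᶠ δ in 𝓝[>] (0 : ℝ), δ < r / B := by
    have : Set.Iio (r / B) ∈ 𝓝 (0 : ℝ) := Iio_mem_nhds (by positivity)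
    exact mem_nhdsWithin_of_mem_nhds this
  obtain ⟨δ, ⟨hδ1, hδ2⟩, hδ0⟩ := ((hev.and hev2).and self_mem_nhdsWithin).exists
  have hδ0' : 0 < δ := hδ0
  have hδB : δ * B ≤ r := by
    rw [lt_div_iff₀ hBpos] at hδ2; exact hδ2.le
  set v : E (k + 3) → ℝ := fun z => δ * v0 z with hv
  have hvs : ContDiff ℝ ∞ v := contDiff_const.mul hv0
  have hvc : HasCompactSupport v := hc0.mul_left
  have hvn : ∀ x, 0 ≤ v x := fun x => mul_nonneg hδ0'.le (hn0 x)
  have hvr : ∀ x, v x ≤ r := fun x => (mul_le_mul_of_nonneg_left (hB0' x) hδ0'.le).trans hδB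
  have hvf : ∀ x, ‖fderiv ℝ v x‖ ≤ r := by
    intro x
    have : fderiv ℝ v x = δ • fderiv ℝ v0 x := by
      rw [hv]
      exact fderiv_const_mul ((hv0.differentiable (by simp)) x) δ
    rw [this, norm_smul, Real.norm_of_nonneg hδ0'.le]
    exact (mul_le_mul_of_nonneg_left (hB1' x) hδ0'.le).trans hδB
  have hTv : ∫ x, Scal (euc v) x * volDensity (euc v) x < 0 := by
    rw [hT (k + 3) v hvs hvc]
    linarith
  -- radius
  obtain ⟨R, hR0, hR⟩ : ∃ R : ℝ, 0 < R ∧ tsupport v ⊆ ball 0 R := by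
    obtain ⟨R, hR⟩ := (hvc : IsCompact (tsupport v)).isBounded.subset_ball 0
    exact ⟨max R 1, lt_of_lt_of_le one_pos (le_max_right _ _), hR.trans (ball_subset_ball (le_max_left _ _))⟩
  have hTball : ∫ x in ball (0 : E (k + 3)) R, Scal (euc v) x * volDensity (euc v) x < 0 := by
    rw [setIntegral_eq_integral_of_forall_compl_eq_zero]
    · exact hTv
    · intro x hx
      exact scal_zero hSC hvs fun h => hx (hR h)
  have hz : ContDiff ℝ ∞ (0 : E (k + 3) → ℝ) := contDiff_zero_fun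
  have hT0 : ∫ x in ball (0 : E (k + 3)) R, Scal (euc 0) x * volDensity (euc 0) x = 0 := by
    refine setIntegral_eq_zero_of_forall_eq_zero fun x _ => ?_
    refine scal_zero hSC hz ?_
    simp [tsupport]
  obtain ⟨c1, t1⟩ := lim_fam hZ hF hJ hI G U hU h0 hG h1 v hvs R
  obtain ⟨c2, t2⟩ := lim_fam hZ hF hJ hI G U hU h0 hG h1 0 hz R
  rw [hT0] at t2
  have hlt := t1.eventually_lt t2 hTball
  -- points in U
  obtain ⟨s, hs0, hs⟩ := Metric.isOpen_iff.1 hU 0 h0
  have e1 : ∀ᶠ ε in 𝓝[>] (0 : ℝ), ε < min (min 1 (r / R)) (s / (r + R)) := by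
    have : Set.Iio (min (min 1 (r / R)) (s / (r + R))) ∈ 𝓝 (0 : ℝ) := Iio_mem_nhds (by positivity)
    exact mem_nhdsWithin_of_mem_nhds this
  obtain ⟨ε, ⟨⟨⟨⟨hlt, hc1⟩, hc2⟩, he1⟩, hε0⟩⟩ :=
    ((((hlt.and c1).and c2).and e1).and self_mem_nhdsWithin).exists
  have hε : 0 < ε := hε0
  have hε1 : ε < 1 := he1.trans_le ((min_le_left _ _).trans (min_le_left _ _))
  have hε2 : ε * R < r := by
    have := he1.trans_le ((min_le_left _ _).trans (min_le_right _ _))
    rwa [lt_div_iff₀ hR0] at this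
  have hε3 : ε * (r + R) < s := by
    have := he1.trans_le (min_le_right _ _)
    rwa [lt_div_iff₀ (by positivity)] at this
  have hmem : ∀ x ∈ closedBall (0 : E (k + 3)) (ε * R), ε⁻¹ • x ∈ closedBall (0 : E (k + 3)) R := by
    intro x hx
    rw [mem_closedBall_zero_iff] at hx ⊢
    rw [norm_smul, norm_inv, Real.norm_of_nonneg hε.le, inv_mul_le_iff₀ hε]
    exact hx
  have hsc : ∀ x : E (k + 3), ε • (ε⁻¹ • x) = x := fun x => by
    rw [smul_smul, mul_inv_cancel₀ hε.ne', one_smul]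
  have h0fun : (fun x : E (k + 3) => ε * (0 : E (k + 3) → ℝ) (ε⁻¹ • x)) = 0 := by
    funext x; simp
  have p1 := hPT (k + 3) G v ε hε hvs
  have p2 := hPT (k + 3) G 0 ε hε hz
  rw [h0fun] at p2
  have hcs : ContinuousOn (fun x : E (k + 3) => ε⁻¹ • x) (closedBall 0 (ε * R)) := by fun_prop
  refine ⟨ε * R, fun x => ε * v (ε⁻¹ • x), by positivity, hε2, ?_, ?_, ?_, ?_, ?_, ?_, ?_⟩
  · exact contDiff_const.mul (hvs.comp (contDiff_const_smul _))
  · -- support
    have hcl : IsClosed ((fun x : E (k + 3) => ε⁻¹ • x) ⁻¹' tsupport v) :=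
      (isClosed_tsupport v).preimage (by fun_prop)
    have hsub : tsupport (fun x : E (k + 3) => ε * v (ε⁻¹ • x)) ⊆
        (fun x : E (k + 3) => ε⁻¹ • x) ⁻¹' tsupport v := by
      refine closure_minimal ?_ hcl
      intro x hx
      refine subset_tsupport v ?_
      rw [Function.mem_support] at hx ⊢
      exact fun h => hx (by simp only [h, mul_zero])
    intro x hx
    have h3 := hR (hsub hx)
    rw [mem_ball_zero_iff] at h3 ⊢
    rw [norm_smul, norm_inv, Real.norm_of_nonneg hε.le, inv_mul_lt_iff₀ hε] at h3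
    exact h3
  · intro x
    refine ⟨mul_nonneg hε.le (hvn _), ?_, ?_⟩
    · have := hvr (ε⁻¹ • x)
      have h4 := hvn (ε⁻¹ • x)
      nlinarith
    · have hd : HasFDerivAt (fun x : E (k + 3) => ε * v (ε⁻¹ • x))
          (ε • ((fderiv ℝ v (ε⁻¹ • x)).comp (ε⁻¹ • ContinuousLinearMap.id ℝ (E (k + 3))))) x := by
        refine HasFDerivAt.const_mul ?_ ε
        have h5 : HasFDerivAt (fun x : E (k + 3) => ε⁻¹ • x) (ε⁻¹ • ContinuousLinearMap.id ℝ (E (k + 3))) x :=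
          (hasFDerivAt_id x).const_smul ε⁻¹
        exact (((hvs.differentiable (by simp)) (ε⁻¹ • x)).hasFDerivAt).comp x h5
      rw [hd.fderiv]
      have e6 : ε • ((fderiv ℝ v (ε⁻¹ • x)).comp (ε⁻¹ • ContinuousLinearMap.id ℝ (E (k + 3)))) =
          fderiv ℝ v (ε⁻¹ • x) := by
        ext w
        simp only [ContinuousLinearMap.smul_apply, ContinuousLinearMap.comp_apply,
          ContinuousLinearMap.id_apply, map_smul, smul_smul]
        rw [mul_inv_cancel₀ hε.ne', one_smul]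
      rw [e6]
      exact hvf _
  · intro x hx t ht
    apply hs
    rw [mem_ball_zero_iff]
    have h7 : cpt t x = ε • cpt (ε⁻¹ * t) (ε⁻¹ • x) := by
      rw [← cpt_smul, hsc, ← mul_assoc, mul_inv_cancel₀ hε.ne', one_mul]
    rw [h7, norm_smul, Real.norm_of_nonneg hε.le]
    refine lt_of_le_of_lt (mul_le_mul_of_nonneg_left (norm_cpt_le _ _) hε.le) ?_
    refine lt_of_le_of_lt (mul_le_mul_of_nonneg_left (add_le_add ?_ ?_) hε.le) hε3
    · rw [abs_of_nonneg (mul_nonneg (inv_nonneg.2 hε.le) ht.1), inv_mul_le_iff₀ hε]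
      exact ht.2.trans (mul_le_mul_of_nonneg_left (hvr _) hε.le)
    · exact mem_closedBall_zero_iff.1 (hmem x hx)
  · refine ContinuousOn.congr (f := fun x => ε⁻¹ ^ 2 * (Scal (fam G v ε) (ε⁻¹ • x) *
      volDensity (fam G v ε) (ε⁻¹ • x))) ?_ (fun x _ => p1 x)
    exact continuousOn_const.mul (hc1.comp hcs hmem)
  · refine ContinuousOn.congr (f := fun x => ε⁻¹ ^ 2 * (Scal (fam G 0 ε) (ε⁻¹ • x) *
      volDensity (fam G 0 ε) (ε⁻¹ • x))) ?_ (fun x _ => p2 x)
    exact continuousOn_const.mul (hc2.comp hcs hmem)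
  · unfold totalScal
    simp only [p1, p2]
    rw [integral_const_mul, integral_const_mul,
      hSub (k + 3) (fun y => Scal (fam G v ε) y * volDensity (fam G v ε) y) ε R hε hR0,
      hSub (k + 3) (fun y => Scal (fam G 0 ε) y * volDensity (fam G 0 ε) y) ε R hε hR0]
    exact mul_lt_mul_of_pos_left (mul_lt_mul_of_pos_left hlt (by positivity)) (by positivity)

end

end Pool.Agent.U866.OM
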