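import Pool.Agent.H498R3.GBDeriv

/-!
Project OM (helper866), MP_a8efab_gt Q2: no hypersurface is outer minimizing for the integral of its
scalar curvature.  Definitions and statements of the pieces (m = dimension of the hypersurface).
-/

set_option autoImplicit false

namespace Pool.Agent.U866.OM

open Pool.Agent.H498R3.GB
open scoped BigOperators ContDiff Topology Matrix
open MeasureTheory Filter Metric

noncomputable section

/-- The point `(t, x)` of `ℝ × ℝ^m = ℝ^(m+1)`; the coordinate with index `0` is the height `t`. -/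
def cpt {m : ℕ} (t : ℝ) (x : E m) : E (m + 1) := WithLp.toLp 2 (Fin.cons t x.ofLp)

/-- The point `(u x, x)` of the graph of `u`. -/
def gpt {m : ℕ} (u : E m → ℝ) (x : E m) : E (m + 1) := cpt (u x) x

/-- The Riemannian metric induced by `G` on the graph of `u`, in the coordinates `x`: the pull-back
`G_ab ∂_i X^a ∂_j X^b` under `X x = (u x, x)`. -/
def graphMetric {m : ℕ} (G : MetricField (m + 1)) (u : E m → ℝ) : MetricField m := fun x =>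
  Matrix.of fun i j => ∑ a, ∑ b,
    G (gpt u x) a b * pd i (fun z => gpt u z a) x * pd j (fun z => gpt u z b) x

/-- The integral of the scalar curvature of `h` over `U` with respect to the volume of `h`. -/
def totalScal {m : ℕ} (h : MetricField m) (U : Set (E m)) : ℝ :=
  ∫ x in U, Scal h x * volDensity h x

/-! ### Euclidean graphs -/

/-- gradient -/
def p {m : ℕ} (v : E m → ℝ) (x : E m) (i : Fin m) : ℝ := pd i v x
/-- Hessian -/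
def A {m : ℕ} (v : E m → ℝ) (x : E m) (i j : Fin m) : ℝ := pd i (pd j v) x
/-- `1 + |Dv|²` -/
def W2 {m : ℕ} (v : E m → ℝ) (x : E m) : ℝ := 1 + ∑ i, p v x i ^ 2
/-- `tr A · A(p,p) - |A p|²` -/
def Q {m : ℕ} (v : E m → ℝ) (x : E m) : ℝ :=
  (∑ i, A v x i i) * (∑ i, ∑ j, A v x i j * p v x i * p v x j) - ∑ i, (∑ j, A v x i j * p v x j) ^ 2
/-- `(tr A)² - |A|²` -/
def S2 {m : ℕ} (v : E m → ℝ) (x : E m) : ℝ := (∑ i, A v x i i) ^ 2 - ∑ i, ∑ j, A v x i j ^ 2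
/-- the metric of the graph of `v` in Euclidean space -/
def euc {m : ℕ} (v : E m → ℝ) : MetricField m := fun x =>
  Matrix.of fun i j => (1 : Matrix (Fin m) (Fin m) ℝ) i j + pd i v x * pd j v x

/-- Gauss equation.  `g = euc v`: `Gam g x a i j = v_a v_ij`, the third derivatives cancel in `Rm`, and
`g^{pq} v_p v_q = |p|²/(1+|p|²)`. -/
def S_RM : Prop := ∀ (m : ℕ) (v : E m → ℝ), ContDiff ℝ ∞ v → ∀ (x : E m) (i j k l : Fin m),
  Rm (euc v) x i j k l = (A v x i k * A v x j l - A v x i l * A v x j k) / W2 v x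

/-- Sherman-Morrison and the matrix determinant lemma. -/
def S_INV : Prop := ∀ (m : ℕ) (v : E m → ℝ) (x : E m),
  (∀ i j, ginv (euc v) x i j = (1 : Matrix (Fin m) (Fin m) ℝ) i j - p v x i * p v x j / W2 v x) ∧
  (euc v x).det = W2 v x

/-- Contraction of `S_RM` with the inverse metric. -/
def S_SC : Prop := ∀ (m : ℕ) (v : E m → ℝ), ContDiff ℝ ∞ v → ∀ x : E m,
  Scal (euc v) x * volDensity (euc v) x =
    S2 v x / √(W2 v x) - 2 * Q v x / (W2 v x * √(W2 v x))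

/-- Integration by parts: `S2 = div Y`, `Y_j = ∑_i (A_ii p_j - A_ij p_i)`, `∂_j (1/√W2) = - (A p)_j / W2^(3/2)`
and `∑_j Y_j (A p)_j = Q`. -/
def S_IBP : Prop := ∀ (m : ℕ) (v : E m → ℝ), ContDiff ℝ ∞ v → HasCompactSupport v →
  ∫ x, S2 v x / √(W2 v x) = ∫ x, Q v x / (W2 v x * √(W2 v x))

/-- From `S_SC` and `S_IBP`. -/
def S_T : Prop := ∀ (m : ℕ) (v : E m → ℝ), ContDiff ℝ ∞ v → HasCompactSupport v →
  ∫ x, Scal (euc v) x * volDensity (euc v) x = - ∫ x, Q v x / (W2 v x * √(W2 v x))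

/-- Small multiples: `Q (δ v) = δ⁴ Q v`, `W2 (δ v) = 1 + δ² |Dv|²`, and the integral of
`Q v / (1 + δ² |Dv|²)^(3/2)` tends to `∫ Q v`. -/
def S_SMALL : Prop := ∀ (m : ℕ) (v : E m → ℝ), ContDiff ℝ ∞ v → HasCompactSupport v → 0 < ∫ x, Q v x →
  ∀ᶠ δ in 𝓝[>] (0 : ℝ), 0 < ∫ x, Q (fun z => δ * v z) x / (W2 (fun z => δ * v z) x * √(W2 (fun z => δ * v z) x))

/-! ### The bump -/

/-- `cos x₀ cos x₁ + sin x₀ sin x₂` -/
def phi (k : ℕ) (x : E (k + 3)) : ℝ := Real.cos (x 0) * Real.cos (x 1) + Real.sin (x 0) * Real.sin (x 2)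
/-- `2 + φ` -/
def psi (k : ℕ) (x : E (k + 3)) : ℝ := 2 + phi k x

/-- With `c = cos x₀`, `s = sin x₀`, `f = cos x₁`, `g = sin x₂`, `N = c s`, `C = c² - s²`, `D = f² - g²`,
`F = 1 - f²`, `K = 1 - g²`. -/
def P0 (c s f g : ℝ) : ℝ :=
  f ^ 2 * g ^ 2 * (c * s * (c ^ 2 - s ^ 2)) / 2 - (f ^ 2 - g ^ 2) ^ 2 * (c * s * (c ^ 2 - s ^ 2)) / 4
  - 3 / 2 * f * g * (f ^ 2 - g ^ 2) * (c * s) ^ 2 + f * g * ((1 - f ^ 2) + (1 - g ^ 2)) * s ^ 2 / 2
  + 2 * f ^ 2 * (1 - f ^ 2) * (c * s / 2 + c * s * (c ^ 2 - s ^ 2) / 8)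
  + 2 * g ^ 2 * (1 - g ^ 2) * (- (c * s) / 2 + c * s * (c ^ 2 - s ^ 2) / 8)
  + ((1 - f ^ 2) * g ^ 2 + (1 - g ^ 2) * f ^ 2) * (c * s * (c ^ 2 - s ^ 2)) / 8
  - ((1 - f ^ 2) * f ^ 2 + (1 - g ^ 2) * g ^ 2) * (c * s * (c ^ 2 - s ^ 2)) / 2

/-- The identity `Q φ = 3/16 + ∂₀ P₀ + ∂₁ P₁ + ∂₂ P₂`. -/
def S_TRIG : Prop := ∀ (k : ℕ) (x : E (k + 3)), Q (psi k) x = 3 / 16
  + pd 0 (fun z : E (k + 3) => P0 (Real.cos (z 0)) (Real.sin (z 0)) (Real.cos (z 1)) (Real.sin (z 2))) x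
  + pd 1 (fun z : E (k + 3) => Real.sin (z 1) * Real.cos (z 1) / 2 * (1 / 8 + Real.sin (z 2) ^ 2 / 4)) x
  + pd 2 (fun z : E (k + 3) => - (Real.sin (z 2) * Real.cos (z 2)) / 8) x

/-- a cut-off function -/
structure IsCut {m : ℕ} (χ : E m → ℝ) : Prop where
  smooth : ContDiff ℝ ∞ χ
  nonneg : ∀ x, 0 ≤ χ x
  le_one : ∀ x, χ x ≤ 1
  zero : ∀ x, 2 ≤ ‖x‖ → χ x = 0
  one : ∀ x, ‖x‖ ≤ 1 → χ x = 1

/-- a function with bounded derivatives of order `≤ 2` -/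
structure IsBdd {m : ℕ} (ψ : E m → ℝ) : Prop where
  smooth : ContDiff ℝ ∞ ψ
  b0 : ∃ B, ∀ x, |ψ x| ≤ B
  b1 : ∃ B, ∀ x i, |pd i ψ x| ≤ B
  b2 : ∃ B, ∀ x i j, |pd i (pd j ψ) x| ≤ B

/-- `ψ` has bounded derivatives. -/
def S_PSI : Prop := ∀ k : ℕ, IsBdd (psi k) ∧ ∀ x, 0 ≤ psi k x

/-- The wide cut-off costs `O(η)`: the jets are `p v = χ p ψ + O(η)`, `A v = χ A ψ + O(η)`, all bounded,
and `Q` is a polynomial in the jets, homogeneous of degree 4. -/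
def S_CUT : Prop := ∀ (m : ℕ) (χ ψ : E m → ℝ), IsCut χ → IsBdd ψ → ∃ C : ℝ, ∀ η : ℝ, 0 < η → η ≤ 1 →
  ∀ x : E m, |Q (fun z => χ (η • z) * ψ z) x - χ (η • x) ^ 4 * Q ψ x| ≤ C * η

/-- Averaging: integration by parts in `w y * (pd i P) (η⁻¹ • y) = w y * η * pd i (fun y => P (η⁻¹ • y)) y`. -/
def S_AVG : Prop := ∀ (m : ℕ) (w : E m → ℝ), ContDiff ℝ ∞ w → HasCompactSupport w →
  ∀ (i : Fin m) (P : E m → ℝ), ContDiff ℝ ∞ P → (∃ B, ∀ x, |P x| ≤ B) →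
  Tendsto (fun η : ℝ => ∫ y, w y * pd i P (η⁻¹ • y)) (𝓝[>] 0) (𝓝 0)

/-- From `S_TRIG`, `S_PSI`, `S_CUT`, `S_AVG`: with `v x = χ (η • x) * psi k x` and `y = η • x`,
`η^m ∫ Q v` tends to `(3/16) ∫ χ⁴ > 0`. -/
def S_POS : Prop := ∀ k : ℕ, ∃ v : E (k + 3) → ℝ, ContDiff ℝ ∞ v ∧ HasCompactSupport v ∧ (∀ x, 0 ≤ v x) ∧
  0 < ∫ x, Q v x

/-! ### Rescaling at a point -/

/-- the induced metric of the graph of `v` in the rescaled metric `G (ε ·)` -/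
def fam {m : ℕ} (G : MetricField (m + 1)) (v : E m → ℝ) (ε : ℝ) : MetricField m := fun y =>
  Matrix.of fun i j => ∑ a, ∑ b,
    G (ε • gpt v y) a b * pd i (fun z => gpt v z a) y * pd j (fun z => gpt v z b) y

/-- At `ε = 0` the family is Euclidean. -/
def S_ZERO : Prop := ∀ (m : ℕ) (G : MetricField (m + 1)) (v : E m → ℝ), ContDiff ℝ ∞ v → G 0 = 1 →
  fam G v 0 = euc v

/-- Smoothness and positivity of the family. -/
def S_FAM : Prop := ∀ (m : ℕ) (G : MetricField (m + 1)) (U : Set (E (m + 1))) (v : E m → ℝ), IsOpen U →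
  IsRiemannianOn G U → ContDiff ℝ ∞ v →
  IsOpen {q : ℝ × E m | q.1 • gpt v q.2 ∈ U} ∧
  (∀ i j, ContDiffOn ℝ ∞ (fun q : ℝ × E m => fam G v q.1 q.2 i j) {q | q.1 • gpt v q.2 ∈ U}) ∧
  ∀ q ∈ {q : ℝ × E m | q.1 • gpt v q.2 ∈ U}, (fam G v q.1 q.2).PosDef

/-- Joint continuity of the scalar curvature density of a smooth family of metrics. -/
def S_JC : Prop := ∀ (m : ℕ) (H : ℝ → MetricField m) (V : Set (ℝ × E m)), IsOpen V →
  (∀ i j, ContDiffOn ℝ ∞ (fun q : ℝ × E m => H q.1 q.2 i j) V) → (∀ q ∈ V, (H q.1 q.2).PosDef) →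
  ContinuousOn (fun q : ℝ × E m => Scal (H q.1) q.2 * volDensity (H q.1) q.2) V

/-- Continuity of parametric integrals over a ball. -/
def S_INT : Prop := ∀ (m : ℕ) (f : ℝ × E m → ℝ) (V : Set (ℝ × E m)) (R : ℝ), IsOpen V → ContinuousOn f V →
  (∀ y ∈ closedBall (0 : E m) R, ((0 : ℝ), y) ∈ V) →
  (∀ᶠ ε in 𝓝[>] (0 : ℝ), ∀ y ∈ closedBall (0 : E m) R, (ε, y) ∈ V) ∧
  Tendsto (fun ε : ℝ => ∫ y in ball (0 : E m) R, f (ε, y)) (𝓝[>] 0) (𝓝 (∫ y in ball (0 : E m) R, f (0, y)))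

/-- Scaling, pointwise. -/
def S_PT : Prop := ∀ (m : ℕ) (G : MetricField (m + 1)) (v : E m → ℝ) (ε : ℝ), 0 < ε → ContDiff ℝ ∞ v → ∀ x : E m,
  Scal (graphMetric G fun x => ε * v (ε⁻¹ • x)) x * volDensity (graphMetric G fun x => ε * v (ε⁻¹ • x)) x =
    ε⁻¹ ^ 2 * (Scal (fam G v ε) (ε⁻¹ • x) * volDensity (fam G v ε) (ε⁻¹ • x))

/-- Substitution in the integral over a ball. -/
def S_SUB : Prop := ∀ (m : ℕ) (f : E m → ℝ) (ε R : ℝ), 0 < ε → 0 < R →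
  ∫ x in ball (0 : E m) (ε * R), f (ε⁻¹ • x) = ε ^ m * ∫ y in ball (0 : E m) R, f y

/-! ### The result -/

/-- Let `G` be a smooth Riemannian metric on a neighbourhood `U` of `0` in `ℝ^(m+1)`, `m ≥ 3`, `G 0 = 1`.
For every `r > 0` there are `ρ < r` and a smooth `u ≥ 0` with support in the ball of radius `ρ`, `u ≤ r`,
`|du| ≤ r`, such that the graph of `u` has smaller total scalar curvature over this ball than the
hyperplane. -/
def Target : Prop := ∀ m : ℕ, 3 ≤ m → ∀ (G : MetricField (m + 1)) (U : Set (E (m + 1))), IsOpen U →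
  0 ∈ U → IsRiemannianOn G U → G 0 = 1 → ∀ r : ℝ, 0 < r → ∃ (ρ : ℝ) (u : E m → ℝ), 0 < ρ ∧ ρ < r ∧
    ContDiff ℝ ∞ u ∧ tsupport u ⊆ ball 0 ρ ∧ (∀ x, 0 ≤ u x ∧ u x ≤ r ∧ ‖fderiv ℝ u x‖ ≤ r) ∧
    (∀ x ∈ closedBall (0 : E m) ρ, ∀ t ∈ Set.Icc 0 (u x), cpt t x ∈ U) ∧
    ContinuousOn (fun x => Scal (graphMetric G u) x * volDensity (graphMetric G u) x) (closedBall 0 ρ) ∧
    ContinuousOn (fun x => Scal (graphMetric G 0) x * volDensity (graphMetric G 0) x) (closedBall 0 ρ) ∧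
    totalScal (graphMetric G u) (ball 0 ρ) < totalScal (graphMetric G 0) (ball 0 ρ)

end

end Pool.Agent.U866.OM
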